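import Mathlib

set_option autoImplicit false
set_option linter.unusedSectionVars false

open Finset

namespace Pool.Agent.Lib.MP_f5167d_co.W

variable {V : Type} [Fintype V] [DecidableEq V]

/-- colour class of the colour c -/
def cls (f : V → ℕ) (c : ℕ) : Finset V := univ.filter (fun v => f v = c)

@[simp] lemma mem_cls {f : V → ℕ} {c : ℕ} {v : V} : v ∈ cls f c ↔ f v = c := by
  simp [cls]

open Classical in
/-- neighbourhood as a Finset -/
noncomputable def nb (G : SimpleGraph V) (v : V) : Finset V := univ.filter (fun w => G.Adj v w)

@[simp] lemma mem_nb {G : SimpleGraph V} {v w : V} : w ∈ nb G v ↔ G.Adj v w := by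
  simp [nb]

/-- proper list colouring -/
def Col (G : SimpleGraph V) (L : V → Finset ℕ) (f : V → ℕ) : Prop :=
  (∀ v, f v ∈ L v) ∧ ∀ v w, G.Adj v w → f v ≠ f w

/-- exact colouring: all classes have at most q vertices -/
def Exact (G : SimpleGraph V) (L : V → Finset ℕ) (q : ℕ) (f : V → ℕ) : Prop :=
  Col G L f ∧ ∀ c, (cls f c).card ≤ q

/-- near-colouring with surplus class P -/
def Near (G : SimpleGraph V) (L : V → Finset ℕ) (q : ℕ) (f : V → ℕ) (P : ℕ) : Prop :=
  Col G L f ∧ (cls f P).card = q + 1 ∧ ∀ c, c ≠ P → (cls f c).card ≤ q

/-- v is free for the colour c -/
def Fr (G : SimpleGraph V) (L : V → Finset ℕ) (f : V → ℕ) (v : V) (c : ℕ) : Prop :=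
  c ∈ L v ∧ f v ≠ c ∧ ∀ w, f w = c → ¬ G.Adj v w

/-- arc from the class a to the class b -/
def Arc (G : SimpleGraph V) (L : V → Finset ℕ) (f : V → ℕ) (a b : ℕ) : Prop :=
  ∃ v, f v = a ∧ Fr G L f v b

/-- path of arcs inside the set U of classes -/
def Rt (G : SimpleGraph V) (L : V → Finset ℕ) (f : V → ℕ) (U : Set ℕ) : ℕ → ℕ → Prop :=
  Relation.ReflTransGen (fun a b => a ∈ U ∧ b ∈ U ∧ Arc G L f a b)

lemma Rt.mono {G : SimpleGraph V} {L : V → Finset ℕ} {f : V → ℕ} {U U' : Set ℕ} (h : U ⊆ U')
    {a b : ℕ} (hr : Rt G L f U a b) : Rt G L f U' a b := by
  induction hr with
  | refl => exact Relation.ReflTransGen.refl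
  | tail _ h2 ih => exact Relation.ReflTransGen.tail ih ⟨h h2.1, h h2.2.1, h2.2.2⟩

lemma not_arc_self {G : SimpleGraph V} {L : V → Finset ℕ} {f : V → ℕ} {a : ℕ} :
    ¬ Arc G L f a a := by
  rintro ⟨v, h1, _, h2, _⟩
  exact h2 h1

/-- a path from c to d, with c not equal to d, can be taken to leave c only once -/
lemma Rt.first {G : SimpleGraph V} {L : V → Finset ℕ} {f : V → ℕ} {U : Set ℕ} {c d : ℕ}
    (hcd : c ≠ d) {a : ℕ} (h : Rt G L f U a d) :
    Rt G L f (U \ {c}) a d ∨ ∃ e, e ∈ U \ {c} ∧ Arc G L f c e ∧ Rt G L f (U \ {c}) e d := by
  induction h using Relation.ReflTransGen.head_induction_on with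
  | refl => exact Or.inl Relation.ReflTransGen.refl
  | @head x y h1 h2 ih =>
    obtain ⟨hx, hy, harc⟩ := h1
    rcases ih with ih | ih
    · by_cases hxc : x = c
      · subst hxc
        by_cases hyc : y = x
        · subst hyc
          exact absurd harc not_arc_self
        · exact Or.inr ⟨y, ⟨hy, hyc⟩, harc, ih⟩
      · by_cases hyc : y = c
        · subst hyc
          rcases Relation.ReflTransGen.cases_head ih with h | ⟨z, ⟨h, _⟩, _⟩
          · exact absurd h hcd
          · exact absurd rfl h.2
        · exact Or.inl (Relation.ReflTransGen.head ⟨⟨hx, hxc⟩, ⟨hy, hyc⟩, harc⟩ ih)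
    · exact Or.inr ih

/-- arcs persist if the head class shrinks and the mover stays -/
lemma Fr.of_sub {G : SimpleGraph V} {L : V → Finset ℕ} {f g : V → ℕ} {v : V} {c : ℕ}
    (h : Fr G L f v c) (hv : g v ≠ c) (hs : ∀ w, g w = c → f w = c) : Fr G L g v c :=
  ⟨h.1, hv, fun w hw => h.2.2 w (hs w hw)⟩

/-- SHIFT LEMMA -/
theorem shift {G : SimpleGraph V} {L : V → Finset ℕ} :
    ∀ (n : ℕ) (U : Finset ℕ), U.card = n → ∀ (f : V → ℕ), Col G L f → ∀ c d, c ≠ d → c ∈ U →
      Rt G L f (U : Set ℕ) c d →
      ∃ g : V → ℕ, Col G L g ∧ (∀ v, f v ∉ U → g v = f v) ∧ (∀ v, f v ∈ U → g v ∈ U) ∧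
        (∀ v, g v = c → f v = c) ∧ (∀ v, f v = d → g v = d) ∧
        (cls g c).card + 1 = (cls f c).card ∧ (cls g d).card = (cls f d).card + 1 ∧
        (∀ e, e ≠ c → e ≠ d → (cls g e).card = (cls f e).card) ∧
        (∃ x, f x = c ∧ g x ≠ c ∧ ∀ v, v ≠ x → f v = c → g v = c) ∧
        (∃ x, f x ≠ d ∧ Fr G L f x d ∧ ∀ v, g v = d ↔ (f v = d ∨ v = x)) := by
  intro n
  induction n with
  | zero =>
    intro U hU f hf c d hcd hc
    rw [Finset.card_eq_zero] at hU
    subst hU
    simp at hc
  | succ n ih =>
    intro U hU f hf c d hcd hc hr
    obtain h | ⟨e, he, ⟨x, hx1, hx2⟩, hr'⟩ := Rt.first hcd hr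
    · rcases Relation.ReflTransGen.cases_head h with h | ⟨z, ⟨h, _⟩, _⟩
      · exact absurd h hcd
      · exact absurd rfl h.2
    · have hec : e ≠ c := he.2
      have hU' : (U.erase c).card = n := by
        rw [Finset.card_erase_of_mem hc, hU]; rfl
      by_cases hed : e = d
      · subst hed
        -- one step
        refine ⟨Function.update f x e, ⟨?_, ?_⟩, ?_, ?_, ?_, ?_, ?_, ?_, ?_, ?_, ?_⟩
        · intro v
          by_cases hv : v = x
          · subst hv; simpa using hx2.1
          · rw [Function.update_of_ne hv]; exact hf.1 v
        · intro v w hvw
          by_cases hv : v = x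
          · subst hv
            by_cases hw : w = v
            · subst hw; exact absurd hvw (G.irrefl)
            · rw [Function.update_self, Function.update_of_ne hw]
              intro h
              exact hx2.2.2 w h.symm hvw
          · by_cases hw : w = x
            · subst hw
              rw [Function.update_self, Function.update_of_ne hv]
              intro h
              exact hx2.2.2 v h hvw.symm
            · rw [Function.update_of_ne hv, Function.update_of_ne hw]
              exact hf.2 v w hvw
        · intro v hv
          have : v ≠ x := by rintro rfl; exact hv (hx1 ▸ hc)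
          rw [Function.update_of_ne this]
        · intro v hv
          by_cases h : v = x
          · subst h; simpa using he.1
          · rw [Function.update_of_ne h]; exact hv
        · intro v hv
          by_cases h : v = x
          · subst h; exact hx1
          · rwa [Function.update_of_ne h] at hv
        · intro v hv
          by_cases h : v = x
          · subst h; simp
          · rwa [Function.update_of_ne h]
        · have : cls f c = insert x (cls (Function.update f x e) c) := by
            ext v
            by_cases h : v = x
            · subst h; simp [hx1]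
            · simp [h]
          rw [this, Finset.card_insert_of_notMem]
          simp [hec]
        · have : cls (Function.update f x e) e = insert x (cls f e) := by
            ext v
            by_cases h : v = x
            · subst h; simp
            · simp [h]
          rw [this, Finset.card_insert_of_notMem]
          simp [hx1, Ne.symm hec]
        · intro a ha1 ha2
          congr 1
          ext v
          by_cases h : v = x
          · subst h; simp [hx1, Ne.symm ha1, Ne.symm ha2]
          · simp [h]
        · refine ⟨x, hx1, ?_, ?_⟩
          · simp [hec]
          · intro v hv hv2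
            rwa [Function.update_of_ne hv]
        · refine ⟨x, ?_, hx2, ?_⟩
          · rw [hx1]; exact Ne.symm hec
          · intro v
            by_cases h : v = x
            · subst h; simp
            · simp [h]
      · obtain ⟨g, hg1, hg2, hg3, hg4, hg5, hg6, hg7, hg8, ⟨z, hz1, hz2, hz3⟩, ⟨y, hy1, hy2, hy3⟩⟩ :=
          ih (U.erase c) hU' f hf e d hed (by simp [hec]; exact he.1)
            (by simpa using hr')
        have hxe : x ≠ z := by rintro rfl; exact hec (hz1.symm.trans hx1)
        have hgx : g x = c := by rw [hg2 x (by simp [hx1])]; exact hx1
        have hgc : ∀ v, g v = c ↔ f v = c := by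
          intro v
          constructor
          · intro h
            by_contra hne
            by_cases hvU : f v ∈ U.erase c
            · have := hg3 v hvU
              rw [h] at this
              simp at this
            · rw [hg2 v hvU] at h
              exact hne h
          · intro h
            rw [hg2 v (by simp [h])]
            exact h
        refine ⟨Function.update g x e, ⟨?_, ?_⟩, ?_, ?_, ?_, ?_, ?_, ?_, ?_, ?_, ?_⟩
        · intro v
          by_cases hv : v = x
          · subst hv; simpa using hx2.1
          · rw [Function.update_of_ne hv]; exact hg1.1 v
        · intro v w hvw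
          by_cases hv : v = x
          · subst hv
            by_cases hw : w = v
            · subst hw; exact absurd hvw (G.irrefl)
            · rw [Function.update_self, Function.update_of_ne hw]
              intro h
              exact hx2.2.2 w (hg4 w h.symm) hvw
          · by_cases hw : w = x
            · subst hw
              rw [Function.update_self, Function.update_of_ne hv]
              intro h
              exact hx2.2.2 v (hg4 v h) hvw.symm
            · rw [Function.update_of_ne hv, Function.update_of_ne hw]
              exact hg1.2 v w hvw
        · intro v hv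
          have : v ≠ x := by rintro rfl; exact hv (hx1 ▸ hc)
          rw [Function.update_of_ne this]
          exact hg2 v (fun h => hv (Finset.mem_of_mem_erase h))
        · intro v hv
          by_cases h : v = x
          · subst h; simpa using he.1
          · rw [Function.update_of_ne h]
            by_cases hvc : f v = c
            · rw [(hgc v).2 hvc]; exact hc
            · exact Finset.mem_of_mem_erase (hg3 v (by simp [hvc, hv]))
        · intro v hv
          by_cases h : v = x
          · subst h; exact hx1
          · rw [Function.update_of_ne h] at hv
            exact (hgc v).1 hv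
        · intro v hv
          by_cases h : v = x
          · subst h
            exact absurd (hx1.symm.trans hv) hcd
          · rw [Function.update_of_ne h]
            exact hg5 v hv
        · have : cls f c = insert x (cls (Function.update g x e) c) := by
            ext v
            by_cases h : v = x
            · subst h; simp [hx1]
            · simp [h, hgc]
          rw [this, Finset.card_insert_of_notMem]
          simp [hec]
        · rw [← hg7]
          congr 1
          ext v
          by_cases h : v = x
          · subst h; simp [hgx, hcd, hed]
          · simp [h]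
        · intro a ha1 ha2
          by_cases hae : a = e
          · subst hae
            have h1 : cls (Function.update g x a) a = insert x (cls g a) := by
              ext v
              by_cases h : v = x
              · subst h; simp
              · simp [h]
            rw [h1, Finset.card_insert_of_notMem, hg6]
            simp [hgx, Ne.symm hec]
          · rw [← hg8 a hae ha2]
            congr 1
            ext v
            by_cases h : v = x
            · subst h; simp [hgx, Ne.symm ha1, Ne.symm hae]
            · simp [h]
        · refine ⟨x, hx1, ?_, ?_⟩
          · simp [hec]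
          · intro v hv hv2
            rw [Function.update_of_ne hv]
            exact (hgc v).2 hv2
        · refine ⟨y, hy1, hy2, ?_⟩
          intro v
          by_cases h : v = x
          · subst h
            rw [Function.update_self]
            constructor
            · intro h; exact absurd h hed
            · rintro (h | h)
              · exact absurd (hx1.symm.trans h) hcd
              · have := (hy3 v).2 (Or.inr h)
                rw [hgx] at this
                exact absurd this hcd
          · rw [Function.update_of_ne h]
            exact hy3 v

end Pool.Agent.Lib.MP_f5167d_co.W
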