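import Pool.Agent.Lib.MP_f5167d_co.W.HP
import Pool.Agent.Lib.MP_f5167d_co.KM.Main

/-!
The proof in words (helper45 and, independently, helper28; 3 December).

# MP_f5167d_co: COMPLETE PROOF OF THE KOSTOCHKA-PELSMAJER-WEST CONJECTURE (S12411), helper45, 3 Dec 11:05 UTC. Please attack it.
(Ingredients: lexicographic layer potential of helper91 (here with vertices instead of pairs), growth of |M| (helper43), weight u/(k-1-m) (helpers 22, 26, 45). One state, one potential, no dynamics, no Case I / II, no dominators.)

THEOREM. Every vertex of G has degree <= k-1, |L(v)| = k, n <= kq. Then there is a proper L-colouring with all classes of size <= q (EXACT).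
q <= 1: greedy. Let q >= 2. Induction on the number of edges; suppose no exact colouring. Take x not isolated: G - E(x) has an exact colouring, recolour x with a colour of L(x) not used by its neighbours: a
NEAR-COLOURING of G: proper, one class P of size q+1, all others <= q.

## 0. Definitions (f a near-colouring, classes = colours c in Gamma = union of all lists, some may be empty; I write c also for the class)
F_v = {c in L(v) : c <> f(v), no neighbour of v in c} (free classes). A_0 = open classes (size <= q-1). A_i (i >= 1): classes not in A_0..A_{i-1} containing a v with F_v n A_{i-1} <> {}. T = union of all A_i.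
M = {v : F_v n A_0 <> {}}.  nu_i (i >= 1) = #{v not in V(A_0 u..u A_i) : F_v n A_i <> {}}.
CHOOSE f MAXIMAL, lexicographically, for Psi = (|A_0|, |M|, |A_1|, nu_1, |A_2|, nu_2, ...) among ALL near-colourings of G.
R = classes reachable from P by arcs (c -> c' if some v in c has c' in F_v); P not in T (shift), so R n T = {}; J = Gamma \ (T u R). u = |R| >= 1, m = |J|. Classes in J and in T \ A_0 have size q (full).
|V_R| = uq+1, |V_J| = mq, |V(T)| <= kappa q - 1, kappa := k-u-m >= 1, K := kappa-1 >= 0. N = number of full classes in T; N <= K.   k-1 = u+m+K.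
(0.1) y in V_R has a neighbour in every class of L(y) \ R; z in V_J has a neighbour in every class of L(z) n T, and |L(z) n T| >= kappa. So F_v n T = {} for v outside V(T), M is in V(T).
(0.2) y in V_R: D_y = 1 + |N(y) n V_R|; a = |L(y) n T|; n_c = |N(y) n c|; e = sum_{c in T n L(y)} (n_c - 1) + sum_{c in T \ L(y)} n_c = d_T(y) - a. With rho = u - |L(y) n R| >= 0: a >= K+1+rho, e <= u - rho - D_y (degree count).
(0.3) w in V(T), p_w = |F_w n T|: |N(w) n V_R| + |N(w) n V_J| <= u + m + min(p_w, K).
S_w = {y in V_R : W in L(y), N(y) n W = {w}}, W = f(w) in T; s_w = |S_w|. y is solo at W.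

## 1. LEMMA A. S_w <> {}, W in A_i  =>  F_w n (A_0 u..u A_i) = {}.
Proof. F in F_w n A_j, j <= i, F <> W. Shift along a shortest path from F to an open class (if j >= 1; it avoids W: layers), w -> F, y -> W, shift P ~> f(y) inside R: exact colouring.

## 2. LEMMA B. y in S_w, W = f(w) in A_i. Put m_W(y) = #{v in N(y) : F_v n A_i = {W}, and, if i >= 1, v not in V(A_0 u..u A_i)}. Then s_w <= D_y + m_W(y).
Proof. First shift P ~> B := f(y) inside R: near-colouring f1, y in B = surplus class, T, J, all layers, M, nu_i unchanged. Target c for w: if p_w > 0 any c in F_w n T (by Lemma A in a layer > i, full). If p_w = 0: w has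
neighbours in all classes of L(w) n T \ W, so at most |L(w) n (R u J)| in V_R u V_J, one of them is y: some c in L(w) n (R u J) has N(w) n c contained in {y} (in f1). f': y -> W, w -> c: a near-colouring, surplus class c.
Contents of the classes of A_0..A_i except W are unchanged (c is not one of them); w and y are not in M and are not free for A_0..A_i (Lemma A, (0.1)), also in f' (w ~ y). So A_0, M (if i >= 1), A_1, nu_1, ..., A_i are the same for f'
(the members of the sets defining them are not w, y). For the next coordinate (|M| if i = 0, nu_i if i >= 1) only W has changed, W' = W - w + y: lost are exactly the v ~ y with F_v n A_i = {W} (and v outside the layers <= i if i >= 1): m_W(y) of them;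
gained are all v (outside V(A_0..A_i) if i >= 1) with F_v n A_i = {}, W in L(v), N(v) n W = {w}, v not~ y, in particular all of S_w \ N[y]. By maximality |S_w \ N[y]| <= m_W(y), and |S_w n N[y]| <= D_y. QED
(2.1) Each v counted in m_W(y) lies in V(T), and y is not solo at f(v) with neighbour v (else y in S_v and Lemma A for v: W in F_v, layer of W < layer of f(v), or i = 0). For different W the counted sets are disjoint (the layer of f(v) determines i
    (i = 0 iff v in M), and F_v n A_i = {W}). So sum over the solo classes W of y of m_W(y) <= mu(y) := #{v in N(y) n V(T) : f(v) not in L(y) or n_{f(v)} >= 2} = e + nu, nu = #{c in T n L(y) : n_c >= 2} <= e.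

## 3. COUNT. alpha := u/(u+K), beta := u + alpha m; (1-alpha)u = alpha K.
Every w in V(T) has capacity beta; it gives alpha to each neighbour in V_J and to each neighbour in V_R \ S_w, and, if S_w <> {}, all the rest in equal parts to S_w. By (0.3) each y in S_w gets >= alpha + alpha (K-p_w)^+/s_w; if S_w = {} the
rest is >= alpha (K-p_w)^+. V_J receives >= alpha kappa m q. y in V_R receives  rec(y) >= alpha ( a + e + sum_{solo} (K-p_w)^+ / s_w )   [(a - nu) + (e + nu) = a + e].
(3.1) CLAIM: a + e + sum_{solo} K/s_w >= kappa/alpha = K+1 + K(K+1)/u. Indeed sigma = a - nu solo classes, s_w <= D + m_W, sum m_W <= e + nu <= 2e, Cauchy: sum 1/s_w >= sigma^2/(sigma D + e + nu); the worst case is nu = e = x, rho = 0,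
    D = u - x, sigma = c - x, c := K+1: need T(x) := (c-x)[u(u-x) + (c-1)(c-u)] + 2ux - 2c(c-1) >= 0 (times x). T(u-1) = (c-u-1)^2 c; for c >= u+1 T is convex with T'(u-1) = -(c-u)(u+c-1) < 0, so T >= 0 on [0,u-1];
    for c <= u, sigma >= 1, g = u-c: T = u sigma(sigma-2) + sigma g(g+1) + 2c(g+1) >= 0 (sigma = 1: (g+1)(g+2c)-c-g > 0); sigma = 0: e >= nu = a suffices. (Checked by computer, exact integers, u < 16, K < 40, all rho, D, e, nu.)
Sum over everything: kappa(uq+1) - alpha sum_{S_w<>{}} min(p_w,K) <= sum rec(y) <= beta(kappa q - 1) - alpha kappa m q - alpha sum_{S_w={}} (K-p_w)^+, i.e.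
(3.2)   kappa + u + alpha m + alpha sum_{S_w = {}} (K-p_w)^+  <=  alpha sum_{w exceptional} p_w,        exceptional: S_w <> {}, p_w > 0 (then F_w n T consists of FULL classes, by Lemma A).

## 4. GROWTH. For a full class c in T take a shortest path c = c_0 -> ... -> c_l = O_c, O_c open, and shift along it: near-colouring f^c, c is open. If |O_c| <= q-2 then |A_0| grows: contradiction. So |O_c| = q-1, A_0(f^c) = A_0 - O_c + c, and
|M(f^c)| <= |M|. But M(f^c) contains {v : c in F_v} and {v : F_v n (A_0 \ O_c) <> {}}. With M_O = {v : F_v n A_0 = {O}} we get (exceptional w have F_w n A_0 = {})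
        #{w exceptional : c in F_w} <= #{v in M_{O_c} : c not in F_v}.
Sum over c:  sum_{exc} p_w <= sum_{v : |F_v n A_0| = 1} (N - p_v^f),  p_v^f = number of free full classes of v in T; for these v: S_v = {}, p_v = 1 + p_v^f.
IF N <= K-1 then N - p_v^f <= K - p_v <= (K-p_v)^+ : sum_{exc} p_w <= sum_{S_v={}} (K-p_v)^+, contradiction to (3.2) (kappa + u + alpha m > 0).

## 5. N = K. If K = 0 there is no full class in T, no exceptional w, (3.2) is absurd. Let K >= 1: sum of the sizes of the open classes <= q-1, so O := O_c has q-1 vertices, all other open classes O' are EMPTY. O' in L(v) for some v, then O' in F_v, so f(v) in T.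
f(v) full: a path f(v) -> O' with |O'| = 0 <= q-2, contradiction (section 4). f(v) = O: move v to O', then x_0 (in a full class of A_1, free for O) to O: |A_0| grows, contradiction. So A_0 = {O}, |T| = K+1, |Gamma| = k: ALL LISTS ARE EQUAL, n = kq, and the
HAJNAL-SZEMEREDI THEOREM gives an exact colouring. QED

## 6. Hajnal-Szemeredi (n = kq, lists = Gamma, |Gamma| = k) in the same language (for Lean), induction on k. f near-colouring with |T| maximal. D' = Gamma \ T, b = |D'|, |V_D'| = bq+1, T = {O} u K full classes, K+1+b = k. Every y in V_D' has a neighbour in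
each class of T, so G[V_D' - y] has degrees <= b-1 and an exact colouring with D' (induction). K = 0: edges V_D' - O: (k-1)q+1 <= (q-1)(k-1), absurd. K >= 1: Dom(X) = classes of T not reaching O when X is removed. Take X* with Dom(X*) <> {} minimal
(Dom(O) = all full classes), C = Dom(X*), t = |C|: Dom(X) = {} for X in C. S_w = solos in V_D'. w in X in C, S_w <> {} => F_w n T = {}, |N(w) n V_D'| <= b, S_w is a clique (y1, y2 not adjacent: recolour V_D' - y1 exactly, y1 -> X, w -> free class of D':
near-colouring, T grows by the class of y2), so s_w <= D_y = 1 + d_D'(y). S_v = {} => |N(v) n V_D'| <= b + t. Weights: alpha' = b/(b+t) to non-solos, the rest of b to S_w: y receives >= alpha'(t + e + t(t-nu)/D) >= t since e + t(t-nu)^+/(b-e) >= t^2/b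
(nu <= e: x(b^2 - bt + t^2 - bx) >= 0 for x <= min(t,b-1)). Total: t(bq+1) <= b t q, contradiction.

-/

set_option autoImplicit false
set_option linter.unusedSectionVars false

open Finset

namespace Pool.Agent.Lib.MP_f5167d_co.W

/-- THE KOSTOCHKA-PELSMAJER-WEST CONJECTURE, in the form with an arbitrary bound q -/
theorem kpw (V : Type) [Fintype V] [DecidableEq V] (G : SimpleGraph V) (L : V → Finset ℕ) (k q : ℕ)
    (hL : ∀ v, (L v).card = k) (hdeg : ∀ v, (nb G v).card + 1 ≤ k)
    (hcard : Fintype.card V ≤ k * q) : ∃ g, Exact G L q g := by
  classical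
  rcases Nat.lt_or_ge q 2 with hq | hq
  · have hcases : q = 0 ∨ q = 1 := by omega
    rcases hcases with rfl | rfl
    · have h0 : Fintype.card V = 0 := by omega
      have : IsEmpty V := Fintype.card_eq_zero_iff.1 h0
      refine ⟨fun _ => 0, ⟨fun v => this.elim v, fun v => this.elim v⟩, fun c => ?_⟩
      have : cls (fun _ : V => 0) c = ∅ := by
        ext v; exact this.elim v
      rw [this]; simp
    · exact exact_one G L k hL hcard
  · refine edge_ind G L k q hL hcard hdeg ?_
    intro H hH f P hn
    by_contra hno
    let I : Pool.MP_f5167d_co.KM.Inst V :=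
      { G := H
        L := L
        k := k
        q := q
        hk := hL
        hdeg := fun v => by
          have h := hH v
          have e : (univ.filter (fun w => H.Adj v w)) = nb H v := by
            ext w; simp
          rw [e]; omega
        hn := hcard
        hq := hq
        noex := fun g h1 h2 h3 => hno ⟨g, ⟨h1, h2⟩, h3⟩ }
    refine Pool.MP_f5167d_co.KM.main_near I ?_ ⟨f, P, hn⟩
    intro h4 C hC
    exact HSall k V H C q hC h4 hH

end Pool.Agent.Lib.MP_f5167d_co.W
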