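import Pool.Agent.Lib.MP_f5167d_co.W.Base

set_option autoImplicit false
set_option linter.unusedSectionVars false

open Finset

namespace Pool.Agent.Lib.MP_f5167d_co.W

variable {V : Type} [Fintype V] [DecidableEq V]

/-- edgeless graphs: Hall -/
theorem exists_edgeless (L : V → Finset ℕ) (k q : ℕ) (hL : ∀ v, (L v).card = k)
    (hcard : Fintype.card V ≤ k * q) :
    ∃ f : V → ℕ, (∀ v, f v ∈ L v) ∧ ∀ c, (cls f c).card ≤ q := by
  classical
  have hall : ∀ s : Finset V, s.card ≤ (s.biUnion (fun v => L v ×ˢ (Finset.univ : Finset (Fin q)))).card := by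
    intro s
    rcases s.eq_empty_or_nonempty with h | ⟨v, hv⟩
    · subst h; simp
    · calc s.card ≤ Fintype.card V := Finset.card_le_univ s
        _ ≤ k * q := hcard
        _ = (L v ×ˢ (Finset.univ : Finset (Fin q))).card := by
            rw [Finset.card_product, hL v]; simp
        _ ≤ _ := Finset.card_le_card (Finset.subset_biUnion_of_mem
            (fun v => L v ×ˢ (Finset.univ : Finset (Fin q))) hv)
  obtain ⟨F, hF1, hF2⟩ := (Finset.all_card_le_biUnion_card_iff_exists_injective
    (fun v => L v ×ˢ (Finset.univ : Finset (Fin q)))).1 hall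
  refine ⟨fun v => (F v).1, fun v => (Finset.mem_product.1 (hF2 v)).1, ?_⟩
  intro c
  have : (cls (fun v => (F v).1) c).card ≤ (Finset.univ : Finset (Fin q)).card := by
    apply Finset.card_le_card_of_injOn (fun v => (F v).2)
    · intro v _; simp
    · intro v hv w hw h
      have h1 : (F v).1 = c := by simpa using hv
      have h2 : (F w).1 = c := by simpa using hw
      exact hF1 (Prod.ext (h1.trans h2.symm) h)
  simpa using this

/-- one step: an exact colouring of H minus an edge gives an exact or a near-colouring of H -/
theorem near_of_edge (H : SimpleGraph V) (L : V → Finset ℕ) (k q : ℕ) (hL : ∀ v, (L v).card = k)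
    (hdeg : ∀ v, (nb H v).card + 1 ≤ k) {x y : V} (hxy : H.Adj x y)
    {g : V → ℕ} (hg : ∀ v, g v ∈ L v) (hgq : ∀ c, (cls g c).card ≤ q)
    (hgp : ∀ v w, H.Adj v w → g v = g w → (v = x ∧ w = y) ∨ (v = y ∧ w = x)) :
    (∃ f, Exact H L q f) ∨ ∃ f P, Near H L q f P := by
  classical
  by_cases hc : g x = g y
  · have hex : ∃ d ∈ (L x).erase (g x), ∀ w, H.Adj x w → g w ≠ d := by
      by_contra hcon
      push Not at hcon
      have hsub : (L x).erase (g x) ⊆ ((nb H x).erase y).image g := by
        intro d hd
        obtain ⟨w, hw1, hw2⟩ := hcon d hd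
        refine Finset.mem_image.2 ⟨w, Finset.mem_erase.2 ⟨?_, by simpa using hw1⟩, hw2⟩
        rintro rfl
        exact (Finset.mem_erase.1 hd).1 (hw2.symm.trans hc.symm)
      have h1 := (Finset.card_le_card hsub).trans Finset.card_image_le
      rw [Finset.card_erase_of_mem (hg x), Finset.card_erase_of_mem (by simpa using hxy), hL x] at h1
      have h2 := hdeg x
      have h3 : 1 ≤ (nb H x).card := Finset.card_pos.2 ⟨y, by simpa using hxy⟩
      omega
    obtain ⟨d, hd, hdn⟩ := hex
    obtain ⟨hdx, hdL⟩ := Finset.mem_erase.1 hd
    set f := Function.update g x d with hf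
    have hcol : Col H L f := by
      refine ⟨?_, ?_⟩
      · intro v
        by_cases hv : v = x
        · subst hv; simpa [hf] using hdL
        · rw [hf, Function.update_of_ne hv]; exact hg v
      · intro v w hvw
        by_cases hv : v = x
        · subst hv
          have hw : w ≠ v := fun h => H.irrefl (h ▸ hvw)
          rw [hf, Function.update_self, Function.update_of_ne hw]
          exact fun h => hdn w hvw h.symm
        · by_cases hw : w = x
          · subst hw
            rw [hf, Function.update_self, Function.update_of_ne hv]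
            exact fun h => hdn v hvw.symm h
          · rw [hf, Function.update_of_ne hv, Function.update_of_ne hw]
            intro h
            rcases hgp v w hvw h with h' | h'
            · exact hv h'.1
            · exact hw h'.2
    have hsz : ∀ c, c ≠ d → (cls f c).card ≤ q := by
      intro c hcd
      refine (Finset.card_le_card ?_).trans (hgq c)
      intro v hv
      rw [mem_cls] at hv ⊢
      by_cases h : v = x
      · subst h
        rw [hf, Function.update_self] at hv
        exact absurd hv.symm hcd
      · rwa [hf, Function.update_of_ne h] at hv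
    have hszd : (cls f d).card ≤ q + 1 := by
      have : cls f d ⊆ insert x (cls g d) := by
        intro v hv
        rw [mem_cls] at hv
        by_cases h : v = x
        · subst h; simp
        · rw [hf, Function.update_of_ne h] at hv
          simp [hv]
      exact (Finset.card_le_card this).trans ((Finset.card_insert_le _ _).trans
        (Nat.succ_le_succ (hgq d)))
    by_cases hd2 : (cls f d).card ≤ q
    · left
      refine ⟨f, hcol, fun c => ?_⟩
      by_cases h : c = d
      · subst h; exact hd2
      · exact hsz c h
    · right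
      exact ⟨f, d, hcol, by omega, hsz⟩
  · left
    refine ⟨g, ⟨hg, ?_⟩, hgq⟩
    intro v w hvw h
    rcases hgp v w hvw h with ⟨h1, h2⟩ | ⟨h1, h2⟩
    · subst h1; subst h2; exact hc h
    · subst h1; subst h2; exact hc h.symm

/-- EDGE INDUCTION: if all near-colourings of all spanning subgraphs lead to exact colourings, then
there is an exact colouring -/
theorem edge_ind (G : SimpleGraph V) (L : V → Finset ℕ) (k q : ℕ) (hL : ∀ v, (L v).card = k)
    (hcard : Fintype.card V ≤ k * q) (hdeg : ∀ v, (nb G v).card + 1 ≤ k)
    (hnear : ∀ H : SimpleGraph V, (∀ v, (nb H v).card + 1 ≤ k) → ∀ f P, Near H L q f P →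
      ∃ g, Exact H L q g) : ∃ g, Exact G L q g := by
  classical
  have key : ∀ n : ℕ, ∀ H : SimpleGraph V, (∀ v, (nb H v).card + 1 ≤ k) →
      H.edgeSet.ncard = n → ∃ g, Exact H L q g := by
    intro n
    induction n using Nat.strong_induction_on with
    | _ n ih =>
      intro H hH hn
      by_cases hE : ∃ x y, H.Adj x y
      · obtain ⟨x, y, hxy⟩ := hE
        have hlt : (H.deleteEdges {s(x, y)}).edgeSet.ncard < n := by
          rw [← hn]
          apply Set.ncard_lt_ncard _ (Set.toFinite _)
          rw [SimpleGraph.edgeSet_deleteEdges]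
          refine ⟨Set.sdiff_subset, ?_⟩
          intro hsub
          have := hsub (show s(x, y) ∈ H.edgeSet from hxy)
          exact this.2 rfl
        have hdeg' : ∀ v, (nb (H.deleteEdges {s(x, y)}) v).card + 1 ≤ k := by
          intro v
          refine le_trans (Nat.succ_le_succ (Finset.card_le_card ?_)) (hH v)
          intro w hw
          rw [mem_nb] at hw ⊢
          exact (SimpleGraph.deleteEdges_adj.1 hw).1
        obtain ⟨g, ⟨hg1, hg2⟩, hg3⟩ := ih _ hlt (H.deleteEdges {s(x, y)}) hdeg' rfl
        have hgp : ∀ v w, H.Adj v w → g v = g w → (v = x ∧ w = y) ∨ (v = y ∧ w = x) := by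
          intro v w hvw h
          by_contra hcon
          refine hg2 v w ?_ h
          rw [SimpleGraph.deleteEdges_adj]
          refine ⟨hvw, ?_⟩
          simpa [Sym2.eq_iff] using hcon
        rcases near_of_edge H L k q hL hH hxy hg1 hg3 hgp with h | ⟨f, P, h⟩
        · exact h
        · exact hnear H hH f P h
      · obtain ⟨f, hf1, hf2⟩ := exists_edgeless L k q hL hcard
        exact ⟨f, ⟨hf1, fun v w h => absurd ⟨v, w, h⟩ hE⟩, hf2⟩
  exact key _ G hdeg rfl

/-- q = 1: distinct colours -/
theorem exact_one (G : SimpleGraph V) (L : V → Finset ℕ) (k : ℕ) (hL : ∀ v, (L v).card = k)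
    (hcard : Fintype.card V ≤ k * 1) : ∃ g, Exact G L 1 g := by
  obtain ⟨f, hf1, hf2⟩ := exists_edgeless L k 1 hL hcard
  refine ⟨f, ⟨hf1, ?_⟩, hf2⟩
  intro v w hvw h
  have := Finset.card_le_one.1 (hf2 (f w)) v (by simpa using h) w (by simp)
  subst this
  exact G.irrefl hvw

end Pool.Agent.Lib.MP_f5167d_co.W
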