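import Pool.Agent.Lib.MP_f5167d_co.PC
import Pool.Agent.Lib.MP_f5167d_co.W.Wrap

set_option autoImplicit false

open Finset

namespace Pool.Agent.Lib.MP_f5167d_co.W

/-- The Hajnal-Szemeredi theorem (card V = b q, all lists equal to `C`). -/
theorem HSall (b : ℕ) (V : Type) [Fintype V] [DecidableEq V] (H : SimpleGraph V) (C : Finset ℕ)
    (q : ℕ) (hC : C.card = b) (hcard : Fintype.card V = b * q)
    (hdeg : ∀ v, (nb H v).card + 1 ≤ b) :
    ∃ g : V → ℕ, (∀ v, g v ∈ C) ∧ (∀ u v, H.Adj u v → g u ≠ g v) ∧ ∀ c, (cls g c).card ≤ q := by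
  classical
  obtain ⟨g, hg1, hg2⟩ := PC.prescribed (C := {c // c ∈ C}) H b q (fun _ => q)
    (by rw [sum_const, card_univ, Fintype.card_coe, hC, smul_eq_mul, hcard])
    (fun _ => le_refl q) (by rw [hcard]) (fun v => by
      have e : PC.nb H v = nb H v := by
        ext w
        simp
      rw [e]
      exact hdeg v)
  refine ⟨fun v => (g v : ℕ), fun v => (g v).2, ?_, ?_⟩
  · intro u v huv h
    exact hg1 u v huv (Subtype.ext h)
  · intro c
    by_cases hc : c ∈ C
    · have e : cls (fun v => (g v : ℕ)) c = PC.cls g ⟨c, hc⟩ := by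
        ext v
        rw [mem_cls, PC.mem_cls, Subtype.ext_iff]
      rw [e, hg2]
    · have e : cls (fun v => (g v : ℕ)) c = ∅ := by
        rw [eq_empty_iff_forall_notMem]
        intro v hv
        rw [mem_cls] at hv
        exact hc (hv ▸ (g v).2)
      rw [e]
      simp

end Pool.Agent.Lib.MP_f5167d_co.W
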